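import Mathlib
import Pool.Agent.Helper69.BQ.St.D
import Pool.Agent.Helper25.BiqMain

/-!
# Project BQ, piece D4: the criterion for a summand
-/

namespace Pool.Agent.Helper26.BQ

open Module NumberField Pool.Agent.Helper25.Biq
open Pool.Agent.Helper69.BQ

variable {K : Type} [Field K] [NumberField K] [IsGalois ℚ K] {g12 g13 g23 : ℤ}

/-- D4 (from D1, D2, D3, `norm_rel`). The criterion for a summand. -/
theorem main_sem (D : Dat K g12 g13 g23) {m n : ℕ} (A B : Matrix (Fin n) (Fin m) (ZMod 2))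
    (ψ : ℚ → Fin n → ZMod 2) (hm : ∀ a b, a ≠ 0 → b ≠ 0 → ψ (a * b) = ψ a + ψ b)
    (hu : ∀ f, f ≠ 0 → sc (algebraMap ℚ K f) ∈ UCl K → ψ f = 0)
    (L1 L2 : Matrix (Fin m) (Fin n) (ZMod 2))
    (hub : ∀ t : TT K, ∃ c1 c2 : ℚ, c1 ≠ 0 ∧ c2 ≠ 0 ∧
      toQ (t + act D.σ t) = (UCl K).mkQ (sc (algebraMap ℚ K c1)) ∧
      toQ (t + act D.τ t) = (UCl K).mkQ (sc (algebraMap ℚ K c2)) ∧
      A.mulVec (L1.mulVec (ψ c1) + L2.mulVec (ψ c2)) = ψ c1 ∧
      B.mulVec (L1.mulVec (ψ c1) + L2.mulVec (ψ c2)) = ψ c2)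
    (t : Fin m → TT K) (c1 c2 : Fin m → ℚ) (h1 : ∀ j, c1 j ≠ 0) (h2 : ∀ j, c2 j ≠ 0)
    (ht1 : ∀ j, toQ (t j + act D.σ (t j)) = (UCl K).mkQ (sc (algebraMap ℚ K (c1 j))))
    (ht2 : ∀ j, toQ (t j + act D.τ (t j)) = (UCl K).mkQ (sc (algebraMap ℚ K (c2 j))))
    (f : Fin n → ℚ) (hf : ∀ k, f k ≠ 0) (w : Fin n → TT K)
    (hw : ∀ k, toQ (w k) = (UCl K).mkQ (sc (algebraMap ℚ K (f k))))
    (hw' : ∀ (g : K ≃ₐ[ℚ] K) (k : Fin n), act g (w k) = w k)
    (hψf : ∀ k, ψ (f k) = Pi.single k 1)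
    (hr1 : ∀ j, sc (algebraMap ℚ K (c1 j)) + ∑ k, A k j • sc (algebraMap ℚ K (f k)) ∈ UCl K)
    (hr2 : ∀ j, sc (algebraMap ℚ K (c2 j)) + ∑ k, B k j • sc (algebraMap ℚ K (f k)) ∈ UCl K)
    (hL : ∀ j, (L1.mulVec fun k => A k j) + (L2.mulVec fun k => B k j) = Pi.single j 1) :
    Arises (kroRep A B) := by
  obtain ⟨φ, hφ1, hφ2, hφ3⟩ := exists_phi D
  obtain ⟨Ψ, hΨ⟩ := exists_psi (K := K) ψ hm hu
  have dbl : ∀ x : TT K, x + x = 0 := TT.add_self
  have dbV : ∀ {k : ℕ} (x : Fin k → ZMod 2), x + x = 0 := by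
    intro k x
    ext j
    exact CharTwo.add_self_eq_zero _
  have hσσ : ∀ x : TT K, act D.σ (act D.σ x) = x := fun x => by rw [← act_mul, D.v4.ss, act_one]
  have hττ : ∀ x : TT K, act D.τ (act D.τ x) = x := fun x => by rw [← act_mul, D.v4.tt, act_one]
  have hστ : ∀ x : TT K, act D.σ (act D.τ x) = act D.ρ x := fun x => by rw [← act_mul, D.v4.st]
  have hτσ : ∀ x : TT K, act D.τ (act D.σ x) = act D.ρ x := fun x => by rw [← act_mul, D.v4.ts]
  let S : TT K →ₗ[ZMod 2] TT K := LinearMap.id + act D.σ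
  let T : TT K →ₗ[ZMod 2] TT K := LinearMap.id + act D.τ
  let U : TT K →ₗ[ZMod 2] (Fin m → ZMod 2) :=
    L1.mulVecLin ∘ₗ Ψ ∘ₗ S + L2.mulVecLin ∘ₗ Ψ ∘ₗ T
  have hU : ∀ x, U x = L1.mulVec (Ψ (x + act D.σ x)) + L2.mulVec (Ψ (x + act D.τ x)) :=
    fun x => rfl
  -- the functionals on the images of `1 + σ` and `1 + τ`
  have hA : ∀ x, Ψ (x + act D.σ x) = A.mulVec (U x) := by
    intro x
    obtain ⟨a, b, ha, hb, h3, h4, h5, -⟩ := hub x
    rw [hU, hΨ _ a ha h3, hΨ _ b hb h4, h5]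
  have hB : ∀ x, Ψ (x + act D.τ x) = B.mulVec (U x) := by
    intro x
    obtain ⟨a, b, ha, hb, h3, h4, -, h5⟩ := hub x
    rw [hU, hΨ _ a ha h3, hΨ _ b hb h4, h5]
  have hUσ : ∀ x, U (act D.σ x) = U x := by
    intro x
    have e1 : act D.σ x + act D.σ (act D.σ x) = x + act D.σ x := by rw [hσσ, add_comm]
    have e2 : act D.σ x + act D.τ (act D.σ x) = x + act D.τ x := by
      have h3 := norm_rel D.v4 x
      rw [hτσ]
      have h4 : (act D.σ x + act D.ρ x) + (x + act D.τ x) = 0 := by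
        rw [← h3]; abel
      calc act D.σ x + act D.ρ x
          = (act D.σ x + act D.ρ x) + ((x + act D.τ x) + (x + act D.τ x)) := by
            rw [dbl, add_zero]
        _ = ((act D.σ x + act D.ρ x) + (x + act D.τ x)) + (x + act D.τ x) := by
            abel
        _ = x + act D.τ x := by rw [h4, zero_add]
    rw [hU, hU, e1, e2]
  have hUτ : ∀ x, U (act D.τ x) = U x := by
    intro x
    have e1 : act D.τ x + act D.τ (act D.τ x) = x + act D.τ x := by rw [hττ, add_comm]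
    have e2 : act D.τ x + act D.σ (act D.τ x) = x + act D.σ x := by
      have h3 := norm_rel D.v4 x
      rw [hστ]
      have h4 : (act D.τ x + act D.ρ x) + (x + act D.σ x) = 0 := by
        rw [← h3]; abel
      calc act D.τ x + act D.ρ x
          = (act D.τ x + act D.ρ x) + ((x + act D.σ x) + (x + act D.σ x)) := by
            rw [dbl, add_zero]
        _ = ((act D.τ x + act D.ρ x) + (x + act D.σ x)) + (x + act D.σ x) := by
            abel
        _ = x + act D.σ x := by rw [h4, zero_add]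
    rw [hU, hU, e1, e2]
  have hΨσ : ∀ x, Ψ (act D.σ x) = Ψ x + A.mulVec (U x) := by
    intro x
    rw [← hA, map_add, ← add_assoc, dbV, zero_add]
  have hΨτ : ∀ x, Ψ (act D.τ x) = Ψ x + B.mulVec (U x) := by
    intro x
    rw [← hB, map_add, ← add_assoc, dbV, zero_add]
  let π : TT K →ₗ[ZMod 2] ((Fin m → ZMod 2) × (Fin n → ZMod 2)) := LinearMap.prod U Ψ
  have hπ1 : ∀ x, π x = (U x, Ψ x) := fun x => rfl
  -- the rational classes in the columns
  have hq : ∀ (M : Matrix (Fin n) (Fin m) (ZMod 2)) (j : Fin m) (c : ℚ) (x : TT K),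
      toQ x = (UCl K).mkQ (sc (algebraMap ℚ K c)) →
      sc (algebraMap ℚ K c) + ∑ k, M k j • sc (algebraMap ℚ K (f k)) ∈ UCl K →
      x = ∑ k, M k j • w k := by
    intro M j c x hx hr
    apply toQ_injective
    rw [hx, map_sum]
    simp_rw [map_smul, hw]
    have h3 : (UCl K).mkQ (sc (algebraMap ℚ K c) +
        ∑ k, M k j • sc (algebraMap ℚ K (f k))) = 0 := by
      rw [Submodule.mkQ_apply, Submodule.Quotient.mk_eq_zero]
      exact hr
    rw [map_add, map_sum] at h3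
    simp_rw [map_smul] at h3
    have h4 : ∀ z : SqCl K ⧸ UCl K, z + z = 0 := by
      intro z
      have : (2 : ZMod 2) • z = 0 := by
        have h2 : (2 : ZMod 2) = 0 := rfl
        rw [h2, zero_smul]
      rwa [two_smul] at this
    rw [add_eq_zero_iff_eq_neg] at h3
    rw [h3, neg_eq_iff_add_eq_zero, h4]
  have hcol1 : ∀ j, t j + act D.σ (t j) = ∑ k, A k j • w k :=
    fun j => hq A j (c1 j) _ (ht1 j) (hr1 j)
  have hcol2 : ∀ j, t j + act D.τ (t j) = ∑ k, B k j • w k :=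
    fun j => hq B j (c2 j) _ (ht2 j) (hr2 j)
  have hΨw : ∀ k, Ψ (w k) = Pi.single k 1 := by
    intro k
    rw [hΨ _ (f k) (hf k) (hw k), hψf]
  have hsum : ∀ (k : ℕ) (v : Fin k → ZMod 2),
      ∑ j, v j • (Pi.single j 1 : Fin k → ZMod 2) = v := by
    intro k v
    ext l
    rw [Finset.sum_apply]
    simp only [Pi.smul_apply, smul_eq_mul, Pi.single_apply, mul_ite, mul_one, mul_zero]
    rw [Finset.sum_ite_eq Finset.univ l v]
    simp
  have hUt : ∀ j, U (t j) = Pi.single j 1 := by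
    intro j
    rw [hU, hcol1, hcol2, map_sum, map_sum]
    simp_rw [map_smul, hΨw]
    rw [hsum n (fun k => A k j), hsum n (fun k => B k j)]
    exact hL j
  have hUw : ∀ k, U (w k) = 0 := by
    intro k
    rw [hU, hw', hw', dbl, map_zero, Matrix.mulVec_zero, Matrix.mulVec_zero, add_zero]
  let i : ((Fin m → ZMod 2) × (Fin n → ZMod 2)) →ₗ[ZMod 2] TT K :=
    LinearMap.coprod (Fintype.linearCombination (ZMod 2) t) (Fintype.linearCombination (ZMod 2) w)
  have hi1 : ∀ v, i v = ∑ j, v.1 j • t j + ∑ k, v.2 k • w k := fun v => rfl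
  have hUi : ∀ v, U (i v) = v.1 := by
    intro v
    rw [hi1, map_add, map_sum, map_sum]
    simp_rw [map_smul, hUt, hUw, smul_zero]
    rw [Finset.sum_const_zero, add_zero, hsum]
  -- equivariance of `i` for one operator
  have hig : ∀ (g : K ≃ₐ[ℚ] K) (M : Matrix (Fin n) (Fin m) (ZMod 2)),
      (∀ j, t j + act g (t j) = ∑ k, M k j • w k) →
      ∀ v : (Fin m → ZMod 2) × (Fin n → ZMod 2),
        act g (i v) = i (v.1, v.2 + M.mulVec v.1) := by
    intro g M hM v
    rw [hi1, hi1, map_add, map_sum, map_sum]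
    simp_rw [map_smul, hw']
    have h3 : ∀ j, act g (t j) = t j + ∑ k, M k j • w k := by
      intro j
      rw [← hM, ← add_assoc, dbl, zero_add]
    simp_rw [h3, smul_add, Finset.sum_add_distrib, Pi.add_apply, add_smul,
      Finset.sum_add_distrib]
    have h4 : ∑ j, v.1 j • ∑ k, M k j • w k = ∑ k, (M.mulVec v.1) k • w k := by
      simp_rw [Finset.smul_sum]
      rw [Finset.sum_comm]
      refine Finset.sum_congr rfl fun k _ => ?_
      rw [Matrix.mulVec, dotProduct, Finset.sum_smul]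
      refine Finset.sum_congr rfl fun j _ => ?_
      rw [smul_smul, mul_comm]
    rw [h4]
    abel
  have hkro : ∀ (a b : ZMod 2) (v : (Fin m → ZMod 2) × (Fin n → ZMod 2)),
      kroRep A B (Multiplicative.ofAdd (a, b)) v =
        (v.1, v.2 + a • A.mulVec v.1 + b • B.mulVec v.1) := fun a b v => rfl
  -- from generators to all group elements
  have hgen : ∀ P : C22 → Prop, P (Multiplicative.ofAdd (0, 0)) →
      P (Multiplicative.ofAdd (1, 0)) → P (Multiplicative.ofAdd (0, 1)) →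
      P (Multiplicative.ofAdd (1, 1)) → ∀ g, P g := by
    intro P p0 p1 p2 p3 g
    obtain ⟨⟨a, b⟩, rfl⟩ : ∃ x : ZMod 2 × ZMod 2, Multiplicative.ofAdd x = g := ⟨_, rfl⟩
    fin_cases a <;> fin_cases b <;> assumption
  have h00 : φ (Multiplicative.ofAdd (0, 0)) = 1 := map_one φ
  have hiall : ∀ g v, i (kroRep A B g v) = act (φ g) (i v) := by
    refine hgen _ ?_ ?_ ?_ ?_
    · intro v
      rw [h00, act_one, hkro, zero_smul, zero_smul, add_zero, add_zero]
    · intro v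
      rw [hφ1, hkro, one_smul, zero_smul, add_zero, hig _ A hcol1]
    · intro v
      rw [hφ2, hkro, one_smul, zero_smul, add_zero, hig _ B hcol2]
    · intro v
      rw [hφ3, ← hστ, hkro, one_smul, one_smul, hig _ B hcol2, hig _ A hcol1]
      congr 2
      show v.2 + A.mulVec v.1 + B.mulVec v.1 = v.2 + B.mulVec v.1 + A.mulVec v.1
      abel
  have hπall : ∀ g x, π (act (φ g) x) = kroRep A B g (π x) := by
    refine hgen _ ?_ ?_ ?_ ?_
    · intro x
      rw [h00, act_one, hkro, zero_smul, zero_smul, add_zero, add_zero]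
    · intro x
      rw [hφ1, hkro, one_smul, zero_smul, add_zero, hπ1, hπ1, hUσ, hΨσ]
    · intro x
      rw [hφ2, hkro, one_smul, zero_smul, add_zero, hπ1, hπ1, hUτ, hΨτ]
    · intro x
      rw [hφ3, ← hστ, hkro, one_smul, one_smul, hπ1, hπ1, hUσ, hUτ, hΨσ, hΨτ, hUτ]
      congr 1
      show Ψ x + B.mulVec (U x) + A.mulVec (U x) = Ψ x + A.mulVec (U x) + B.mulVec (U x)
      abel
  refine arises_of_maps φ (kroRep A B) i π hiall hπall ?_
  have hker : ∀ v, (π ∘ₗ i) v = 0 → v = 0 := by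
    intro v hv
    have hv1 : U (i v) = 0 := congrArg Prod.fst hv
    have hv2 : Ψ (i v) = 0 := congrArg Prod.snd hv
    rw [hUi] at hv1
    rw [hi1, hv1] at hv2
    simp only [Pi.zero_apply, zero_smul, Finset.sum_const_zero, zero_add] at hv2
    rw [map_sum] at hv2
    simp_rw [map_smul, hΨw] at hv2
    rw [hsum] at hv2
    exact Prod.ext hv1 hv2
  exact (injective_iff_map_eq_zero (π ∘ₗ i)).2 hker

end Pool.Agent.Helper26.BQ
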